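import Pool.Agent.V1195.GPMain

/-!
# MP_7880bd_lc, Q1: the answer is NO.

The word `x0 = 01010110010110` (length 14), and every binary word containing it as a factor, has
GPFA complexity at least 3.
-/

open Matrix

namespace Pool.Agent.Results.MP_7880bd_lc.ThreeStatesNeeded

/-- A `k`-state GPFA over `{0,1}` (`false` is `0`, `true` is `1`): a real row vector `init`, two
real `k × k` matrices `P false = P_0`, `P true = P_1` and a real column vector `fin`. -/
structure GPFA (k : ℕ) where
  /-- the row vector `π` -/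
  init : Fin k → ℝ
  /-- the matrices `P_0`, `P_1` -/
  P : Bool → Matrix (Fin k) (Fin k) ℝ
  /-- the column vector `η` -/
  fin : Fin k → ℝ

/-- `ρ_M(w) = π P_{w_1} ⋯ P_{w_n} η` -/
def GPFA.rho {k : ℕ} (M : GPFA k) (w : List Bool) : ℝ :=
  M.init ⬝ᵥ ((w.map M.P).prod *ᵥ M.fin)

/-- `gap_M(x)`: the minimum of `ρ_M(x) - ρ_M(z)` over the words `z ≠ x` of length `|x|`
(`+∞` if there is no such `z`). -/
noncomputable def GPFA.gap {k : ℕ} (M : GPFA k) (x : List Bool) : EReal :=
  ⨅ z ∈ {z : List Bool | z.length = x.length ∧ z ≠ x}, ((M.rho x - M.rho z : ℝ) : EReal)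

/-- the GPFA complexity `A_G(x)` -/
noncomputable def complexity (x : List Bool) : ℕ :=
  sInf {k : ℕ | 1 ≤ k ∧ ∃ M : GPFA k, 0 < M.gap x}

/-- the word `01010110010110` -/
def x0 : List Bool :=
  [false, true, false, true, false, true, true, false, false, true, false, true, true, false]

theorem lt_of_gap_pos {k : ℕ} {M : GPFA k} {x : List Bool} (h : 0 < M.gap x) {z : List Bool}
    (hl : z.length = x.length) (hne : z ≠ x) : M.rho z < M.rho x := by
  have h1 : M.gap x ≤ ((M.rho x - M.rho z : ℝ) : EReal) := iInf₂_le z ⟨hl, hne⟩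
  have h2 : (0 : EReal) < ((M.rho x - M.rho z : ℝ) : EReal) := lt_of_lt_of_le h h1
  have h3 : 0 < M.rho x - M.rho z := by exact_mod_cast h2
  linarith

theorem two_states (u v : List Bool) (M : GPFA 2) : ∃ z : List Bool, z ≠ u ++ x0 ++ v ∧
    z.length = (u ++ x0 ++ v).length ∧ M.rho (u ++ x0 ++ v) ≤ M.rho z := by
  by_contra hcon
  push Not at hcon
  refine Pool.Agent.V1195.GP.not_exposed_x0 M.P M.init M.fin u v ?_
  intro z hl hne
  exact hcon z hne hl

/-- a one-state GPFA seen as a two-state GPFA -/
def embed (M : GPFA 1) : GPFA 2 where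
  init := ![M.init 0, 0]
  P := fun b => !![M.P b 0 0, 0; 0, 0]
  fin := ![M.fin 0, 0]

theorem embed_rho (M : GPFA 1) (w : List Bool) : (embed M).rho w = M.rho w := by
  have key : ∀ w : List Bool, ((w.map (embed M).P).prod *ᵥ (embed M).fin)
      = ![((w.map M.P).prod *ᵥ M.fin) 0, 0] := by
    intro w
    induction w with
    | nil =>
      ext i
      fin_cases i <;> simp [embed]
    | cons b w ih =>
      rw [List.map_cons, List.prod_cons, ← mulVec_mulVec, ih, List.map_cons, List.prod_cons,
        ← mulVec_mulVec]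
      ext i
      fin_cases i <;> simp [embed, mulVec, dotProduct, Fin.sum_univ_two]
  rw [GPFA.rho, GPFA.rho, key]
  simp [embed, dotProduct, Fin.sum_univ_two]

theorem embed_gap (M : GPFA 1) (x : List Bool) : (embed M).gap x = M.gap x := by
  simp only [GPFA.gap, embed_rho]

/-- the chain automaton of `x` -/
def chain (x : List Bool) : GPFA (x.length + 1) where
  init := fun i => if (i : ℕ) = 0 then 1 else 0
  P := fun b => Matrix.of fun i j => if (j : ℕ) = i + 1 ∧ x[(i : ℕ)]? = some b then 1 else 0
  fin := fun i => if (i : ℕ) = x.length then 1 else 0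

theorem chain_vec (x w : List Bool) (i : Fin (x.length + 1)) :
    ((w.map (chain x).P).prod *ᵥ (chain x).fin) i
      = if (i : ℕ) + w.length = x.length ∧ w = x.drop i then 1 else 0 := by
  induction w generalizing i with
  | nil =>
    have hi : (i : ℕ) ≤ x.length := Nat.lt_succ_iff.mp i.2
    simp only [List.map_nil, List.prod_nil, one_mulVec, chain, List.length_nil, add_zero]
    congr 1
    apply propext
    constructor
    · intro h
      exact ⟨h, by rw [h, List.drop_length]⟩
    · exact fun h => h.1
  | cons b w ih =>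
    rw [List.map_cons, List.prod_cons, ← mulVec_mulVec]
    simp only [mulVec, dotProduct] at ih ⊢
    simp only [ih]
    by_cases hi : (i : ℕ) + 1 < x.length + 1
    · have hi' : (i : ℕ) < x.length := by omega
      rw [Finset.sum_eq_single (⟨i + 1, hi⟩ : Fin (x.length + 1))]
      · rw [List.drop_eq_getElem_cons hi']
        simp only [chain, Matrix.of_apply, List.length_cons, List.cons.injEq]
        rw [List.getElem?_eq_getElem hi']
        simp only [Option.some.injEq, true_and]
        by_cases h1 : x[(i : ℕ)] = b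
        · have h1' : b = x[(i : ℕ)] := h1.symm
          simp only [h1, if_true, one_mul, true_and]
          congr 1
          apply propext
          constructor
          · rintro ⟨h2, h3⟩
            exact ⟨by omega, h3⟩
          · rintro ⟨h2, h3⟩
            exact ⟨by omega, h3⟩
        · have h1' : ¬ b = x[(i : ℕ)] := fun h => h1 h.symm
          simp [h1, h1']
      · intro j _ hj
        have : ¬ ((j : ℕ) = i + 1) := fun h => hj (Fin.ext h)
        simp [chain, this]
      · simp
    · have hi' : (i : ℕ) = x.length := by have := i.2; omega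
      have hl : ¬ ((i : ℕ) + (b :: w).length = x.length ∧ b :: w = x.drop i) := by
        rintro ⟨h, _⟩
        simp only [List.length_cons] at h
        omega
      rw [if_neg hl]
      apply Finset.sum_eq_zero
      intro j _
      have : ¬ ((j : ℕ) = i + 1) := by have := j.2; omega
      simp [chain, this]

theorem chain_rho (x w : List Bool) (hw : w.length = x.length) :
    (chain x).rho w = if w = x then 1 else 0 := by
  rw [GPFA.rho, dotProduct]
  simp only [chain_vec]
  rw [Finset.sum_eq_single (0 : Fin (x.length + 1))]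
  · simp [chain, hw]
  · intro j _ hj
    have : ¬ ((j : ℕ) = 0) := fun h => hj (Fin.ext h)
    have h0 : (chain x).init j = 0 := by
      simp only [chain]
      rw [if_neg this]
    rw [h0, zero_mul]
  · simp

theorem chain_gap (x : List Bool) : 0 < (chain x).gap x := by
  have h1 : (1 : EReal) ≤ (chain x).gap x := by
    refine le_iInf₂ fun z hz => ?_
    rw [chain_rho x x rfl, chain_rho x z hz.1, if_pos rfl, if_neg hz.2]
    simp
  exact lt_of_lt_of_le (by norm_num) h1

/-- **Q1 is false.**  For every word containing `x0 = 01010110010110` as a factor (in particular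
for `x0` itself): every 2-state GPFA `M` has a word `z ≠ x` of the same length with
`ρ_M(z) ≥ ρ_M(x)`; and `A_G(x) ≥ 3` (the set whose minimum is `A_G(x)` being nonempty). -/
theorem result (u v : List Bool) :
    (∀ M : GPFA 2, ∃ z : List Bool, z ≠ u ++ x0 ++ v ∧
      z.length = (u ++ x0 ++ v).length ∧ M.rho (u ++ x0 ++ v) ≤ M.rho z) ∧
    (∃ k : ℕ, 1 ≤ k ∧ ∃ M : GPFA k, 0 < M.gap (u ++ x0 ++ v)) ∧
    3 ≤ complexity (u ++ x0 ++ v) := by
  have hne : {k : ℕ | 1 ≤ k ∧ ∃ M : GPFA k, 0 < M.gap (u ++ x0 ++ v)}.Nonempty :=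
    ⟨(u ++ x0 ++ v).length + 1, by simp, chain _, chain_gap _⟩
  refine ⟨two_states u v, hne, ?_⟩
  have hmem := Nat.sInf_mem hne
  by_contra hlt
  have hlt' : complexity (u ++ x0 ++ v) < 3 := not_le.mp hlt
  obtain ⟨h1, M, hM⟩ := hmem
  change 1 ≤ complexity (u ++ x0 ++ v) at h1
  have two : ∀ M : GPFA 2, ¬ 0 < M.gap (u ++ x0 ++ v) := by
    intro M hM
    obtain ⟨z, hz1, hz2, hz3⟩ := two_states u v M
    exact absurd (lt_of_gap_pos hM hz2 hz1) (not_lt.mpr hz3)
  have hcases : complexity (u ++ x0 ++ v) = 1 ∨ complexity (u ++ x0 ++ v) = 2 := by omega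
  have hM' : ∃ M : GPFA (complexity (u ++ x0 ++ v)), 0 < M.gap (u ++ x0 ++ v) := ⟨M, hM⟩
  rcases hcases with hc | hc
  · rw [hc] at hM'
    obtain ⟨M, hM⟩ := hM'
    exact two (embed M) (by rw [embed_gap]; exact hM)
  · rw [hc] at hM'
    obtain ⟨M, hM⟩ := hM'
    exact two M hM

end Pool.Agent.Results.MP_7880bd_lc.ThreeStatesNeeded
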